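import Pool.Agent.MWA.Stmts

/-!
# Row mwa HAB: heavy blocks absorb; absorption in several blocks at once
-/

set_option autoImplicit false

namespace Pool.Agent.MWA.H27

open Pool.Agent.Helper14_MV Pool.Agent.Helper2_MV Pool.Agent.MVO Pool.Agent.MWL Pool.Agent.MWS
open Pool.Agent.MWA

theorem rep_two {θ : FIC} (h : RR θ [0, 0] [0, 0, 0]) (n : ℕ) :
    RR θ (List.replicate 2 0) (List.replicate (2 + n) 0) := by
  induction n with
  | zero => exact RR.refl _
  | succ n ih =>
    have h1 : RR θ (List.replicate 2 0) (List.replicate 2 0 ++ [0]) := h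
    have h2 := ih.append (RR.refl (β := θ) [0])
    have h3 : RR θ (List.replicate 2 0) (List.replicate (2 + n) 0 ++ [0]) := θ.trans h1 h2
    rw [← List.replicate_succ'] at h3
    exact h3

theorem rep_any {θ : FIC} (h : RR θ [0, 0] [0, 0, 0]) {p q : ℕ} (hp : 2 ≤ p) (hq : 2 ≤ q) :
    RR θ (List.replicate p 0) (List.replicate q 0) := by
  obtain ⟨n, rfl⟩ := Nat.exists_eq_add_of_le hp
  obtain ⟨m, rfl⟩ := Nat.exists_eq_add_of_le hq
  exact θ.trans (rep_two h n).symm (rep_two h m)

theorem mw_update (k : ℕ) (a : ℕ → ℕ) (i m : ℕ) :
    mw k (Function.update a i m) =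
      asm k (Function.update (fun j => List.replicate (a j) 0) i (List.replicate m 0)) := by
  unfold mw
  congr 1
  funext j
  by_cases hj : j = i
  · subst hj
    simp
  · rw [Function.update_of_ne hj, Function.update_of_ne hj]

theorem l1_update {θ : FIC} (h : RR θ [0, 0] [0, 0, 0]) {k : ℕ} {a : ℕ → ℕ} {i m : ℕ}
    (hi : i ≤ k) (ha : 2 ≤ a i) (hm : 2 ≤ m) : L1 θ k a (Function.update a i m) := by
  unfold L1
  rw [mw_update, asm_update hi]
  unfold mw
  rw [asm_split hi]
  exact ((RR.refl (β := θ) _).append (rep_any h ha hm)).append (RR.refl (β := θ) _)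

theorem hab (trn : TrnStmt) : HabStmt := by
  intro θ h
  have first : ∀ (k : ℕ) (a : ℕ → ℕ) (i : ℕ), i ≤ k → 2 ≤ a i → AbF θ k a i := by
    intro k a i hi ha
    have h1 : L1 θ k a (Function.update a i (a i + 2)) := l1_update h hi ha (by omega)
    refine (FC.ofFIC θ).ext (fun j _ => rfl) (fun j _ => ?_) h1
    unfold ad
    by_cases hj : j = i
    · subst hj
      simp
    · simp [Function.update_of_ne hj, hj]
  refine ⟨first, ?_⟩
  intro k a c hc
  have claim : ∀ m ≤ k + 1, L1 θ k a (fun r => if r < m then c r else a r) := by
    intro m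
    induction m with
    | zero =>
      intro _
      exact (FC.ofFIC θ).ext (fun j _ => rfl) (fun j _ => by simp) ((FC.ofFIC θ).refl k a)
    | succ m ih =>
      intro hm
      have ih' := ih (by omega)
      rcases hc m (by omega) with he | ⟨h2, hab⟩
      · refine (FC.ofFIC θ).ext (fun j _ => rfl) (fun j _ => ?_) ih'
        by_cases h1 : j < m
        · rw [if_pos h1, if_pos (by omega)]
        · rw [if_neg h1]
          by_cases h3 : j < m + 1
          · have h4 : j = m := by omega
            subst h4
            rw [if_pos h3, he]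
          · rw [if_neg h3]
      · have h3 : AbF θ k (fun r => if r < m then c r else a r) m :=
          ((trn 1 (FC.ofFIC θ) k a m).1 _ ih').1 hab
        have h4 : L1 θ k (fun r => if r < m then c r else a r)
            (ad 1 (fun r => if r < m then c r else a r) m) := h3
        have h5 : L1 θ k (ad 1 (fun r => if r < m then c r else a r) m)
            (Function.update (ad 1 (fun r => if r < m then c r else a r) m) m (c m)) := by
          apply l1_update h (by omega) _ h2
          simp [ad]
        have h6 := (FC.ofFIC θ).trans ih' ((FC.ofFIC θ).trans h4 h5)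
        refine (FC.ofFIC θ).ext (fun j _ => rfl) (fun j _ => ?_) h6
        by_cases hj : j = m
        · subst hj
          simp
        · rw [Function.update_of_ne hj]
          unfold ad
          rw [if_neg hj, add_zero]
          show (if j < m then c j else a j) = if j < m + 1 then c j else a j
          by_cases h7 : j < m
          · rw [if_pos h7, if_pos (by omega)]
          · rw [if_neg h7, if_neg (by omega)]
  have h9 := claim (k + 1) (le_refl _)
  refine (FC.ofFIC θ).ext (fun j _ => rfl) (fun j hj => ?_) h9
  rw [if_pos (by omega)]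

end Pool.Agent.MWA.H27
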